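import Mathlib
import Pool.Agent.MP_8d021f_pr.Defs

-- part MP_8d021f_pr.Mart
section

/-!
A supermartingale lemma for uniformly random orderings of a finite set.
-/

open Finset

namespace Pool.Agent.MP_8d021f_pr

variable {N : ℕ} {E : Type} [Fintype E] [DecidableEq E]

/-- The first `i` entries of an ordering. -/
def pre (σ : Fin N ≃ E) (i : ℕ) : List E := (List.ofFn σ).take i

omit [Fintype E] [DecidableEq E] in
theorem pre_zero (σ : Fin N ≃ E) : pre σ 0 = [] := by simp [pre]

omit [Fintype E] [DecidableEq E] in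
theorem pre_succ (σ : Fin N ≃ E) {i : ℕ} (hi : i < N) :
    pre σ (i + 1) = pre σ i ++ [σ ⟨i, hi⟩] := by
  unfold pre
  rw [List.take_add_one]
  congr 1
  rw [List.getElem?_eq_getElem (by simpa using hi)]
  simp

omit [Fintype E] [DecidableEq E] in
theorem mem_pre (σ : Fin N ≃ E) (i : ℕ) (e : E) :
    e ∈ pre σ i ↔ ∃ j : Fin N, (j : ℕ) < i ∧ σ j = e := by
  unfold pre
  rw [List.mem_iff_getElem]
  constructor
  · rintro ⟨j, hj, rfl⟩
    simp only [List.length_take, List.length_ofFn, lt_min_iff] at hj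
    exact ⟨⟨j, hj.2⟩, hj.1, by simp⟩
  · rintro ⟨j, hj, rfl⟩
    exact ⟨j, by simp [hj], by simp⟩

omit [Fintype E] [DecidableEq E] in
theorem length_pre (σ : Fin N ≃ E) {i : ℕ} (hi : i ≤ N) : (pre σ i).length = i := by
  simp [pre, hi]

omit [Fintype E] [DecidableEq E] in
theorem nodup_pre (σ : Fin N ≃ E) (i : ℕ) : (pre σ i).Nodup :=
  (List.nodup_ofFn.2 σ.injective).sublist (List.take_sublist _ _)

omit [Fintype E] [DecidableEq E] in
theorem pre_swap (σ : Fin N ≃ E) {i : ℕ} (a b : Fin N) (ha : i ≤ a) (hb : i ≤ b) :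
    pre ((Equiv.swap a b).trans σ) i = pre σ i := by
  unfold pre
  apply List.ext_getElem
  · simp
  · intro j h1 h2
    simp only [List.length_take, List.length_ofFn, lt_min_iff] at h1
    simp only [List.getElem_take, List.getElem_ofFn, Equiv.trans_apply]
    rw [Equiv.swap_apply_of_ne_of_ne]
    · intro h
      have := congrArg Fin.val h
      simp only at this
      omega
    · intro h
      have := congrArg Fin.val h
      simp only at this
      omega

theorem sum_swap (Ψ : List E → ℝ) {i : ℕ} (hi : i < N) (j : Fin N) (hj : i ≤ j) :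
    ∑ σ : Fin N ≃ E, Ψ (pre σ (i + 1)) = ∑ σ : Fin N ≃ E, Ψ (pre σ i ++ [σ j]) := by
  have hinv : Function.Involutive
      (fun σ : Fin N ≃ E => (Equiv.swap (⟨i, hi⟩ : Fin N) j).trans σ) := by
    intro σ
    ext x
    simp
  rw [← Equiv.sum_comp hinv.toPerm (fun σ => Ψ (pre σ (i + 1)))]
  refine Finset.sum_congr rfl fun σ _ => ?_
  simp only [Function.Involutive.coe_toPerm]
  rw [pre_succ _ hi, pre_swap σ _ _ (by simp) hj]
  simp

theorem sum_step (Ψ : List E → ℝ) {i : ℕ} (hi : i < N) :
    ((N : ℝ) - i) * ∑ σ : Fin N ≃ E, Ψ (pre σ (i + 1)) =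
      ∑ σ : Fin N ≃ E, ∑ e ∈ univ.filter (fun e => e ∉ pre σ i), Ψ (pre σ i ++ [e]) := by
  have h1 : ∀ σ : Fin N ≃ E, ∑ e ∈ univ.filter (fun e => e ∉ pre σ i), Ψ (pre σ i ++ [e]) =
      ∑ j ∈ univ.filter (fun j : Fin N => i ≤ j), Ψ (pre σ i ++ [σ j]) := by
    intro σ
    symm
    refine Finset.sum_bij (fun j _ => σ j) ?_ ?_ ?_ ?_
    · intro j hj
      simp only [mem_filter, mem_univ, true_and] at hj ⊢
      rw [mem_pre]
      rintro ⟨k, hk, hkj⟩
      have := σ.injective hkj
      subst this
      omega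
    · intro a _ b _ h
      exact σ.injective h
    · intro e he
      simp only [mem_filter, mem_univ, true_and] at he ⊢
      refine ⟨σ.symm e, ?_, by simp⟩
      by_contra h
      exact he ((mem_pre σ i e).2 ⟨σ.symm e, by omega, by simp⟩)
    · intro _ _
      rfl
  simp_rw [h1]
  rw [Finset.sum_comm]
  have h2 : ∀ j ∈ univ.filter (fun j : Fin N => i ≤ j),
      ∑ σ : Fin N ≃ E, Ψ (pre σ i ++ [σ j]) = ∑ σ : Fin N ≃ E, Ψ (pre σ (i + 1)) := by
    intro j hj
    simp only [mem_filter, mem_univ, true_and] at hj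
    exact (sum_swap Ψ hi j hj).symm
  rw [Finset.sum_congr rfl h2, Finset.sum_const, nsmul_eq_mul]
  congr 1
  have : (univ.filter (fun j : Fin N => i ≤ j)) = Finset.Ici (⟨i, hi⟩ : Fin N) := by
    ext j
    simp [Fin.le_def]
  rw [this, Fin.card_Ici]
  simp [Nat.cast_sub hi.le]

theorem mart (Ψ : List E → ℝ) (γ : ℝ) (hγ : 0 ≤ γ) (t : ℕ) (ht : t ≤ N)
    (h : ∀ l : List E, l.Nodup → l.length < t →
      ∑ e ∈ univ.filter (fun e => e ∉ l), Ψ (l ++ [e]) ≤ γ * ((N : ℝ) - l.length) * Ψ l) :
    ∑ σ : Fin N ≃ E, Ψ (pre σ t) ≤ γ ^ t * (Fintype.card (Fin N ≃ E) * Ψ []) := by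
  have key : ∀ i ≤ t, ∑ σ : Fin N ≃ E, Ψ (pre σ i) ≤
      γ ^ i * (Fintype.card (Fin N ≃ E) * Ψ []) := by
    intro i
    induction i with
    | zero => intro _; simp [pre_zero]
    | succ i ih =>
      intro hi
      have hiN : i < N := by omega
      have hpos : (0 : ℝ) < (N : ℝ) - i := by
        have : (i : ℝ) < N := by exact_mod_cast hiN
        linarith
      have h1 := sum_step Ψ hiN
      have h2 : ∑ σ : Fin N ≃ E, ∑ e ∈ univ.filter (fun e => e ∉ pre σ i), Ψ (pre σ i ++ [e]) ≤
          ∑ σ : Fin N ≃ E, γ * ((N : ℝ) - i) * Ψ (pre σ i) := by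
        refine Finset.sum_le_sum fun σ _ => ?_
        have := h (pre σ i) (nodup_pre σ i) (by rw [length_pre σ hiN.le]; omega)
        rwa [length_pre σ hiN.le] at this
      rw [← h1, ← Finset.mul_sum] at h2
      have h3 : ∑ σ : Fin N ≃ E, Ψ (pre σ (i + 1)) ≤ γ * ∑ σ : Fin N ≃ E, Ψ (pre σ i) := by
        have : ((N : ℝ) - i) * ∑ σ : Fin N ≃ E, Ψ (pre σ (i + 1)) ≤
            ((N : ℝ) - i) * (γ * ∑ σ : Fin N ≃ E, Ψ (pre σ i)) := by linarith
        exact le_of_mul_le_mul_left this hpos
      calc _ ≤ γ * ∑ σ : Fin N ≃ E, Ψ (pre σ i) := h3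
        _ ≤ γ * (γ ^ i * (Fintype.card (Fin N ≃ E) * Ψ [])) :=
          mul_le_mul_of_nonneg_left (ih (by omega)) hγ
        _ = _ := by ring
  exact key t le_rfl

theorem card_not_mem (hN : Fintype.card E = N) (l : List E) (hl : l.Nodup) :
    ((univ.filter (fun e => e ∉ l)).card : ℝ) = (N : ℝ) - l.length := by
  have : univ.filter (fun e => e ∉ l) = l.toFinsetᶜ := by
    ext e
    simp
  rw [this, Finset.card_compl, List.toFinset_card_of_nodup hl, hN]
  have : l.length ≤ N := by
    rw [← hN]
    exact hl.length_le_card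
  push_cast [this]
  ring

/-- A fixed set of `m` elements lies in the first `t` positions with probability at most
`(t / (N - t)) ^ m`. -/
theorem subset_prob (hN : Fintype.card E = N) (F : Finset E) (t : ℕ) (ht : t < N) :
    ((univ.filter (fun σ : Fin N ≃ E => ∀ e ∈ F, e ∈ pre σ t)).card : ℝ) ≤
      ((t : ℝ) / ((N : ℝ) - t)) ^ F.card * Fintype.card (Fin N ≃ E) := by
  have hpos : (0 : ℝ) < (N : ℝ) - t := by
    have : (t : ℝ) < N := by exact_mod_cast ht
    linarith
  set η : ℝ := 1 / ((N : ℝ) - t) with hη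
  have hη0 : 0 < η := by positivity
  let Ψ : List E → ℝ := fun l => (((t : ℝ) - l.length) * η) ^ (F.filter (fun e => e ∉ l)).card
  have hm := mart (N := N) Ψ 1 zero_le_one t ht.le ?_
  · have h0 : Ψ [] = ((t : ℝ) / ((N : ℝ) - t)) ^ F.card := by
      simp [Ψ, hη, div_eq_mul_inv]
    rw [h0, one_pow, one_mul, mul_comm] at hm
    refine le_trans ?_ hm
    rw [Finset.card_filter]
    push_cast
    refine Finset.sum_le_sum fun σ _ => ?_
    simp only [Ψ, length_pre σ ht.le, sub_self, zero_mul]
    split_ifs with hσ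
    · have : F.filter (fun e => e ∉ pre σ t) = ∅ := by
        rw [Finset.filter_eq_empty_iff]
        intro e he
        simpa using hσ e he
      simp [this]
    · positivity
  · intro l hl hlt
    set r := (F.filter (fun e => e ∉ l)).card with hr
    set x : ℝ := ((t : ℝ) - (l.length + 1)) * η with hx
    have hx0 : 0 ≤ x := by
      have : ((l.length : ℝ) + 1) ≤ t := by exact_mod_cast hlt
      have : 0 ≤ (t : ℝ) - (l.length + 1) := by linarith
      positivity
    have hΨ : Ψ l = (x + η) ^ r := by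
      simp only [Ψ, hx]
      congr 1
      ring
    have hb : ∀ e ∈ univ.filter (fun e => e ∉ l),
        Ψ (l ++ [e]) ≤ x ^ r + if e ∈ F then x ^ (r - 1) else 0 := by
      intro e he
      simp only [mem_filter, mem_univ, true_and] at he
      have hlen : (((l ++ [e]).length : ℕ) : ℝ) = l.length + 1 := by simp
      simp only [Ψ, hlen, ← hx]
      split_ifs with heF
      · have : F.filter (fun e' => e' ∉ l ++ [e]) = (F.filter (fun e => e ∉ l)).erase e := by
          ext e'
          simp only [List.mem_append, List.mem_singleton, not_or, mem_filter, mem_erase]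
          tauto
        rw [this, Finset.card_erase_of_mem (by simp [heF, he]), ← hr]
        have : 0 ≤ x ^ r := by positivity
        linarith
      · have : F.filter (fun e' => e' ∉ l ++ [e]) = (F.filter (fun e => e ∉ l)) := by
          ext e'
          simp only [List.mem_append, List.mem_singleton, not_or, mem_filter]
          constructor
          · tauto
          · rintro ⟨h1, h2⟩
            exact ⟨h1, h2, fun h => heF (h ▸ h1)⟩
        rw [this, ← hr, add_zero]
    refine le_trans (Finset.sum_le_sum hb) ?_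
    rw [Finset.sum_add_distrib, Finset.sum_const, nsmul_eq_mul, card_not_mem hN l hl,
      ← Finset.sum_filter, Finset.sum_const, nsmul_eq_mul]
    have hc : ((univ.filter (fun e => e ∉ l)).filter (fun e => e ∈ F)) =
        F.filter (fun e => e ∉ l) := by
      ext e
      simp only [mem_filter, mem_univ, true_and]
      tauto
    rw [hc, ← hr, hΨ, one_mul]
    have hge : (1 : ℝ) ≤ ((N : ℝ) - l.length) * η := by
      have h1 : (l.length : ℝ) ≤ t := by exact_mod_cast hlt.le
      have h2 : ((N : ℝ) - t) * η = 1 := by rw [hη]; field_simp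
      nlinarith
    have hbern : x ^ r + r * η * x ^ (r - 1) ≤ (x + η) ^ r := by
      rcases r with _ | r
      · simp
      · have : ∀ m : ℕ, x ^ (m + 1) + ((m + 1 : ℕ) : ℝ) * η * x ^ m ≤ (x + η) ^ (m + 1) := by
          intro m
          induction m with
          | zero => simp
          | succ m ih =>
            have h1 : 0 ≤ x ^ m := by positivity
            calc _ ≤ (x ^ (m + 1) + ((m + 1 : ℕ) : ℝ) * η * x ^ m) * (x + η) := by
                  push_cast
                  have : 0 ≤ ((m : ℝ) + 1) * η * η * x ^ m := by positivity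
                  ring_nf
                  ring_nf at this
                  nlinarith
              _ ≤ (x + η) ^ (m + 1) * (x + η) :=
                  mul_le_mul_of_nonneg_right ih (by positivity)
              _ = _ := by ring
        simpa using this r
    have hN0 : 0 ≤ (N : ℝ) - l.length := by
      have h1 : (l.length : ℝ) ≤ t := by exact_mod_cast hlt.le
      linarith
    have h5 : (r : ℝ) * x ^ (r - 1) ≤ ((N : ℝ) - l.length) * (r * η * x ^ (r - 1)) := by
      have : 0 ≤ (r : ℝ) * x ^ (r - 1) := by positivity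
      nlinarith
    have h6 := mul_le_mul_of_nonneg_left hbern hN0
    nlinarith

end Pool.Agent.MP_8d021f_pr

end

-- part MP_8d021f_pr.Tree
section

/-!
Rooted trees in which every vertex has at most two children.
-/

open Finset

namespace Pool.Agent.MP_8d021f_pr

variable {V : Type} [DecidableEq V]

/-- `S` is the vertex set of a rooted tree in `G` with at most two children per vertex. -/
def IsBT (G : SimpleGraph V) (S : Finset V) : Prop :=
  ∃ (r : V) (f : V → V) (ρ : V → ℕ), r ∈ S ∧
    (∀ v ∈ S, v ≠ r → f v ∈ S ∧ G.Adj v (f v) ∧ ρ (f v) < ρ v) ∧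
    ∀ u, (S.filter (fun v => v ≠ r ∧ f v = u)).card ≤ 2

theorem IsBT.mono {G H : SimpleGraph V} (h : G ≤ H) {S : Finset V} (hS : IsBT G S) : IsBT H S := by
  obtain ⟨r, f, ρ, hr, h1, h2⟩ := hS
  exact ⟨r, f, ρ, hr, fun v hv hvr => ⟨(h1 v hv hvr).1, h (h1 v hv hvr).2.1, (h1 v hv hvr).2.2⟩, h2⟩

theorem isBT_singleton (G : SimpleGraph V) (v : V) : IsBT G {v} := by
  refine ⟨v, id, fun _ => 0, by simp, by simp, fun u => ?_⟩
  exact (Finset.card_filter_le _ _).trans (by simp)

theorem IsBT.map {W : Type} [DecidableEq W] {G : SimpleGraph V} {H : SimpleGraph W} (φ : G ≃g H)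
    {S : Finset V} (hS : IsBT G S) : IsBT H (S.map φ.toEquiv.toEmbedding) := by
  obtain ⟨r, f, ρ, hr, h1, h2⟩ := hS
  refine ⟨φ r, fun w => φ (f (φ.symm w)), fun w => ρ (φ.symm w),
    Finset.mem_map_of_mem _ hr, ?_, ?_⟩
  · intro w hw hwr
    simp only [mem_map, Equiv.coe_toEmbedding] at hw
    obtain ⟨v, hv, rfl⟩ := hw
    have hvr : v ≠ r := fun h => hwr (by simp [h])
    obtain ⟨a, b, c⟩ := h1 v hv hvr
    refine ⟨?_, ?_, by simpa using c⟩
    · have : φ.symm (φ.toEquiv v) = v := φ.symm_apply_apply v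
      simp only [this]
      exact Finset.mem_map_of_mem _ a
    · have : φ.symm (φ.toEquiv v) = v := φ.symm_apply_apply v
      simp only [this]
      exact φ.map_rel_iff.2 b
  · intro u
    refine le_trans ?_ (h2 (φ.symm u))
    rw [Finset.filter_map, Finset.card_map]
    apply Finset.card_le_card
    intro v hv
    simp only [mem_filter, Function.comp, Equiv.coe_toEmbedding] at hv ⊢
    refine ⟨hv.1, fun h => hv.2.1 (by simp [h]), ?_⟩
    have := hv.2.2
    rw [← this]
    simp

theorem IsBT.extend {G : SimpleGraph V} {S : Finset V} (hS : IsBT G S) :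
    ∃ A ⊆ S, S.card ≤ 2 * A.card ∧ ∀ u ∈ A, ∀ w ∉ S, ∀ H : SimpleGraph V, G ≤ H → H.Adj w u →
      IsBT H (insert w S) := by
  obtain ⟨r, f, ρ, hr, h1, h2⟩ := hS
  let ch : V → ℕ := fun u => (S.filter (fun v => v ≠ r ∧ f v = u)).card
  refine ⟨S.filter (fun u => ch u ≤ 1), Finset.filter_subset _ _, ?_, ?_⟩
  · have hsum : ∑ u ∈ S, ch u = (S.erase r).card := by
      rw [Finset.card_eq_sum_card_fiberwise (f := f) (t := S)]
      · refine Finset.sum_congr rfl fun u _ => ?_
        simp only [ch]
        congr 1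
        ext v
        simp only [mem_filter, mem_erase]
        tauto
      · intro v hv
        simp only [coe_erase, Set.mem_sdiff, mem_coe, Set.mem_singleton_iff] at hv
        exact (h1 v hv.1 hv.2).1
    have h3 : (S.erase r).card ≤ S.card := Finset.card_erase_le
    have h4 : 2 * (S.filter (fun u => ¬ ch u ≤ 1)).card ≤ ∑ u ∈ S, ch u := by
      calc 2 * (S.filter (fun u => ¬ ch u ≤ 1)).card
          = ∑ u ∈ S.filter (fun u => ¬ ch u ≤ 1), 2 := by simp [mul_comm]
        _ ≤ ∑ u ∈ S.filter (fun u => ¬ ch u ≤ 1), ch u := by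
          refine Finset.sum_le_sum fun u hu => ?_
          simp only [mem_filter] at hu
          omega
        _ ≤ ∑ u ∈ S, ch u :=
          Finset.sum_le_sum_of_subset (Finset.filter_subset _ _)
    have h5 := Finset.card_filter_add_card_filter_not (s := S) (fun u => ch u ≤ 1)
    omega
  · intro u hu w hw H hGH hadj
    simp only [mem_filter] at hu
    have hrw : r ≠ w := fun h => hw (h ▸ hr)
    have huw : u ≠ w := fun h => hw (h ▸ hu.1)
    refine ⟨r, Function.update f w u, Function.update ρ w (ρ u + 1), by simp [hr], ?_, ?_⟩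
    · intro v hv hvr
      rcases Finset.mem_insert.1 hv with rfl | hv
      · simp [hu.1, hadj, Function.update_of_ne huw]
      · have hvw : v ≠ w := fun h => hw (h ▸ hv)
        obtain ⟨a, b, c⟩ := h1 v hv hvr
        have hfw : f v ≠ w := fun h => hw (h ▸ a)
        simp only [Function.update_of_ne hvw, Function.update_of_ne hfw]
        exact ⟨Finset.mem_insert_of_mem a, hGH b, c⟩
    · intro x
      rw [Finset.filter_insert]
      have hf : S.filter (fun v => v ≠ r ∧ Function.update f w u v = x) =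
          S.filter (fun v => v ≠ r ∧ f v = x) := by
        refine Finset.filter_congr fun v hv => ?_
        have hvw : v ≠ w := fun h => hw (h ▸ hv)
        simp only [Function.update_of_ne hvw]
      rw [hf]
      split_ifs with hx
      · simp only [Function.update_self] at hx
        have h3 := hu.2
        simp only [ch] at h3
        rw [← hx.2]
        exact (Finset.card_insert_le _ _).trans (by omega)
      · exact h2 x

/-- Graphs containing such a tree on `L` vertices. -/
def HasBT (L : ℕ) : Set (SimpleGraph V) := {G | ∃ S : Finset V, S.card = L ∧ IsBT G S}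

theorem hasBT_minimal_degree {L : ℕ} {G : SimpleGraph V} (hG : Minimal (· ∈ HasBT L) G) (v : V) :
    (G.neighborSet v).ncard ≤ 3 := by
  obtain ⟨S, hL, r, f, ρ, hr, h1, h2⟩ := hG.prop
  let T : SimpleGraph V := SimpleGraph.fromRel (fun x y => x ∈ S ∧ x ≠ r ∧ f x = y)
  have hTG : T ≤ G := by
    intro x y hxy
    simp only [T, SimpleGraph.fromRel_adj] at hxy
    rcases hxy.2 with ⟨a, b, rfl⟩ | ⟨a, b, rfl⟩
    · exact (h1 x a b).2.1
    · exact (h1 y a b).2.1.symm
  have hT : T ∈ HasBT L := by
    refine ⟨S, hL, r, f, ρ, hr, fun x hx hxr => ⟨(h1 x hx hxr).1, ?_, (h1 x hx hxr).2.2⟩, h2⟩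
    exact (SimpleGraph.fromRel_adj _ _ _).2 ⟨(h1 x hx hxr).2.1.ne, Or.inl ⟨hx, hxr, rfl⟩⟩
  have hGT : G ≤ T := hG.le_of_le hT hTG
  have hsub : G.neighborSet v ⊆ ↑(insert (f v) (S.filter (fun x => x ≠ r ∧ f x = v))) := by
    intro y hy
    have := hGT hy
    simp only [T, SimpleGraph.fromRel_adj] at this
    simp only [coe_insert, coe_filter, Set.mem_insert_iff, Set.mem_ofPred_eq]
    rcases this.2 with ⟨_, _, c⟩ | ⟨a, b, c⟩
    · exact Or.inl c.symm
    · exact Or.inr ⟨a, b, c⟩
  refine (Set.ncard_le_ncard hsub (Finset.finite_toSet _)).trans ?_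
  rw [Set.ncard_coe_finset]
  have := h2 v
  exact (Finset.card_insert_le _ _).trans (by omega)

end Pool.Agent.MP_8d021f_pr

end

-- part MP_8d021f_pr.First
section

/-!
The first moment bound.
-/

open Finset

namespace Pool.Agent.MP_8d021f_pr

theorem card_edge (n : ℕ) : Fintype.card (Edge n) = n.choose 2 := by
  rw [← SimpleGraph.edgeFinset_card, SimpleGraph.card_edgeFinset_top_eq_card_choose_two,
    Fintype.card_fin]

theorem graphAt_adj {n : ℕ} (σ : EdgeOrder n) (t : ℕ) (x y : Fin n) :
    (graphAt σ t).Adj x y ↔ ∃ e ∈ pre σ t, (e : Sym2 (Fin n)) = s(x, y) := by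
  unfold graphAt
  rw [SimpleGraph.fromEdgeSet_adj]
  constructor
  · rintro ⟨⟨i, hi, h⟩, _⟩
    exact ⟨σ i, (mem_pre σ t _).2 ⟨i, hi, rfl⟩, h.symm⟩
  · rintro ⟨e, he, h⟩
    obtain ⟨i, hi, rfl⟩ := (mem_pre σ t _).1 he
    refine ⟨⟨i, hi, h.symm⟩, ?_⟩
    have := (σ i).2
    rw [h] at this
    simpa using this

theorem graphAt_mono {n : ℕ} (σ : EdgeOrder n) {s t : ℕ} (h : s ≤ t) :
    graphAt σ s ≤ graphAt σ t := by
  apply SimpleGraph.fromEdgeSet_mono
  rintro e ⟨i, hi, rfl⟩
  exact ⟨i, by omega, rfl⟩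

open Classical in
theorem first_moment (n L t : ℕ) (ht : t < n.choose 2) :
    ((univ.filter (fun σ : EdgeOrder n => graphAt σ t ∈ HasBT L)).card : ℝ) ≤
      (n.choose L * (L * L ^ L) : ℕ) *
        (((t : ℝ) / ((n.choose 2 : ℕ) - t)) ^ (L - 1) * Fintype.card (EdgeOrder n)) := by
  let F : Finset (Fin n) → Fin n → (Fin n → Fin n) → Finset (Edge n) := fun S r g =>
    univ.filter (fun e : Edge n => ∃ v ∈ S, v ≠ r ∧ (e : Sym2 (Fin n)) = s(v, g v))
  let Pi : Finset (Fin n) → Finset (Fin n → Fin n) := fun S =>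
    Fintype.piFinset (fun v => if v ∈ S then S else {v})
  let Ev : Finset (Fin n) → Fin n → (Fin n → Fin n) → Finset (EdgeOrder n) := fun S r g =>
    univ.filter (fun σ => (F S r g).card = L - 1 ∧ ∀ e ∈ F S r g, e ∈ pre σ t)
  set X : ℝ := ((t : ℝ) / ((n.choose 2 : ℕ) - t)) ^ (L - 1) * Fintype.card (EdgeOrder n) with hX
  have hX0 : 0 ≤ X := by
    have : (0 : ℝ) < ((n.choose 2 : ℕ) : ℝ) - t := by
      have : (t : ℝ) < (n.choose 2 : ℕ) := by exact_mod_cast ht
      linarith
    positivity
  have hEv : ∀ S r g, ((Ev S r g).card : ℝ) ≤ X := by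
    intro S r g
    by_cases h : (F S r g).card = L - 1
    · have := subset_prob (card_edge n) (F S r g) t ht
      rw [h] at this
      refine le_trans ?_ this
      simp only [Ev, h, true_and]
      exact le_of_eq (by congr)
    · simp [Ev, h, hX0]
  have hsub : univ.filter (fun σ : EdgeOrder n => graphAt σ t ∈ HasBT L) ⊆
      (powersetCard L univ).biUnion fun S => S.biUnion fun r => (Pi S).biUnion fun g => Ev S r g := by
    intro σ hσ
    simp only [mem_filter, mem_univ, true_and] at hσ
    obtain ⟨S, hL, r, f, ρ, hr, h1, -⟩ := hσ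
    simp only [mem_biUnion]
    let g : Fin n → Fin n := fun v => if v ∈ S ∧ v ≠ r then f v else v
    have hg : ∀ v ∈ S, v ≠ r → g v = f v := fun v hv hvr => by simp [g, hv, hvr]
    refine ⟨S, by simp [hL], r, hr, g, ?_, ?_⟩
    · simp only [Pi, Fintype.mem_piFinset]
      intro v
      by_cases hv : v ∈ S
      · by_cases hvr : v = r
        · simp [g, hvr, hr]
        · simp [g, hv, hvr, (h1 v hv hvr).1]
      · simp [g, hv]
    · simp only [Ev, mem_filter, mem_univ, true_and]
      constructor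
      · rw [← hL, ← Finset.card_erase_of_mem hr]
        symm
        refine Finset.card_bij (fun v hv => (⟨s(v, f v), ?_⟩ : Edge n)) ?_ ?_ ?_
        · simp only [mem_erase] at hv
          simpa using (h1 v hv.2 hv.1).2.1.ne
        · intro v hv
          simp only [mem_erase] at hv
          simp only [F, mem_filter, mem_univ, true_and]
          exact ⟨v, hv.2, hv.1, by rw [hg v hv.2 hv.1]⟩
        · intro a ha b hb hab
          simp only [mem_erase] at ha hb
          simp only [Subtype.mk.injEq, Sym2.eq_iff] at hab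
          rcases hab with h | ⟨h2, h3⟩
          · exact h.1
          · have h4 := (h1 a ha.2 ha.1).2.2
            have h5 := (h1 b hb.2 hb.1).2.2
            rw [h3] at h4
            rw [← h2] at h5
            omega
        · intro e he
          simp only [F, mem_filter, mem_univ, true_and] at he
          obtain ⟨v, hv, hvr, he⟩ := he
          exact ⟨v, by simp [hv, hvr], Subtype.ext (by rw [he, hg v hv hvr])⟩
      · intro e he
        simp only [F, mem_filter, mem_univ, true_and] at he
        obtain ⟨v, hv, hvr, he⟩ := he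
        obtain ⟨e', he', h⟩ := (graphAt_adj σ t _ _).1 (h1 v hv hvr).2.1
        rw [hg v hv hvr, ← h] at he
        rwa [Subtype.ext he]
  have hPi : ∀ S ∈ powersetCard L (univ : Finset (Fin n)), (Pi S).card = L ^ L := by
    intro S hS
    rw [Finset.mem_powersetCard] at hS
    simp only [Pi, Fintype.card_piFinset]
    have : ∀ v : Fin n, (if v ∈ S then S else {v}).card = if v ∈ S then L else 1 := by
      intro v
      split_ifs
      · exact hS.2
      · simp
    simp only [this]
    rw [Finset.prod_ite_mem]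
    simp [hS.2]
  calc ((univ.filter (fun σ : EdgeOrder n => graphAt σ t ∈ HasBT L)).card : ℝ)
      ≤ ∑ S ∈ powersetCard L (univ : Finset (Fin n)), ∑ r ∈ S, ∑ g ∈ Pi S,
          ((Ev S r g).card : ℝ) := by
        have h1 := (Finset.card_le_card hsub).trans Finset.card_biUnion_le
        have h2 : ∑ S ∈ powersetCard L (univ : Finset (Fin n)),
            (S.biUnion fun r => (Pi S).biUnion fun g => Ev S r g).card ≤
            ∑ S ∈ powersetCard L (univ : Finset (Fin n)), ∑ r ∈ S, ∑ g ∈ Pi S, (Ev S r g).card := by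
          refine Finset.sum_le_sum fun S _ => Finset.card_biUnion_le.trans ?_
          exact Finset.sum_le_sum fun r _ => Finset.card_biUnion_le
        exact_mod_cast h1.trans h2
    _ ≤ ∑ S ∈ powersetCard L (univ : Finset (Fin n)), (L * L ^ L : ℕ) * X := by
        refine Finset.sum_le_sum fun S hS => ?_
        have hc := hPi S hS
        rw [Finset.mem_powersetCard] at hS
        calc ∑ r ∈ S, ∑ g ∈ Pi S, ((Ev S r g).card : ℝ) ≤ ∑ r ∈ S, ∑ g ∈ Pi S, X :=
              Finset.sum_le_sum fun r _ => Finset.sum_le_sum fun g _ => hEv S r g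
          _ = _ := by
              simp only [Finset.sum_const, nsmul_eq_mul, hc, hS.2]
              push_cast
              ring
    _ = _ := by
        simp only [Finset.sum_const, nsmul_eq_mul, Finset.card_powersetCard, Finset.card_univ,
          Fintype.card_fin]
        push_cast
        ring

end Pool.Agent.MP_8d021f_pr

end

-- part MP_8d021f_pr.Ladder
section

/-!
An abstract greedy strategy that climbs a ladder of stages, one purchase per stage.
-/

open Finset

namespace Pool.Agent.MP_8d021f_pr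

variable {N : ℕ} {E : Type} [Fintype E] [DecidableEq E] {St : Type}

/-- State of the greedy strategy: bought set, stage, whether the last element was bought. -/
structure LState (E St : Type) where
  B : Finset E
  st : St
  flag : Prop

open Classical in
/-- One step of the greedy strategy. -/
noncomputable def lstep (Inv : Finset E → St → Prop) (fin : St → Prop) (next : St → St)
    (s : LState E St) (e : E) : LState E St :=
  if ¬ fin s.st ∧ Inv (insert e s.B) (next s.st) then ⟨insert e s.B, next s.st, True⟩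
  else ⟨s.B, s.st, False⟩

/-- The state after a list of shown elements. -/
noncomputable def lrun (Inv : Finset E → St → Prop) (fin : St → Prop) (next : St → St) (s0 : St)
    (l : List E) : LState E St :=
  l.foldl (lstep Inv fin next) ⟨∅, s0, False⟩

omit [Fintype E] in
theorem lrun_concat (Inv : Finset E → St → Prop) (fin : St → Prop) (next : St → St) (s0 : St)
    (l : List E) (e : E) :
    lrun Inv fin next s0 (l ++ [e]) = lstep Inv fin next (lrun Inv fin next s0 l) e := by
  simp [lrun, List.foldl_append]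

omit [Fintype E] in
theorem lrun_inv (Inv : Finset E → St → Prop) (fin : St → Prop) (next : St → St) (s0 : St)
    (h0 : Inv ∅ s0) (l : List E) :
    Inv (lrun Inv fin next s0 l).B (lrun Inv fin next s0 l).st := by
  induction l using List.reverseRecOn with
  | nil => simpa [lrun] using h0
  | append_singleton l e ih =>
    rw [lrun_concat]
    unfold lstep
    split_ifs with h
    · exact h.2
    · exact ih

omit [Fintype E] in
open Classical in
theorem lrun_bought (Inv : Finset E → St → Prop) (fin : St → Prop) (next : St → St) (s0 : St)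
    (cost : St → ℕ) (hcost : ∀ s, ¬ fin s → cost s + 1 ≤ cost (next s)) (σ : Fin N ≃ E)
    (t : ℕ) (ht : t ≤ N) :
    (univ.filter (fun i : Fin N => (i : ℕ) < t ∧ (lrun Inv fin next s0 (pre σ (i + 1))).flag)).card
        + cost s0 ≤ cost (lrun Inv fin next s0 (pre σ t)).st ∧
      ∀ e ∈ (lrun Inv fin next s0 (pre σ t)).B,
        ∃ i : Fin N, (i : ℕ) < t ∧ (lrun Inv fin next s0 (pre σ (i + 1))).flag ∧ e = σ i := by
  induction t with
  | zero => simp [pre_zero, lrun]
  | succ t ih =>
    have htN : t < N := by omega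
    obtain ⟨ih1, ih2⟩ := ih htN.le
    have hstep : lrun Inv fin next s0 (pre σ (t + 1)) =
        lstep Inv fin next (lrun Inv fin next s0 (pre σ t)) (σ ⟨t, htN⟩) := by
      rw [pre_succ σ htN, lrun_concat]
    by_cases h : ¬ fin (lrun Inv fin next s0 (pre σ t)).st ∧
        Inv (insert (σ ⟨t, htN⟩) (lrun Inv fin next s0 (pre σ t)).B)
          (next (lrun Inv fin next s0 (pre σ t)).st)
    · have hs : lrun Inv fin next s0 (pre σ (t + 1)) =
          ⟨insert (σ ⟨t, htN⟩) (lrun Inv fin next s0 (pre σ t)).B,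
            next (lrun Inv fin next s0 (pre σ t)).st, True⟩ := by
        rw [hstep, lstep, if_pos h]
      constructor
      · have hsub : univ.filter (fun i : Fin N => (i : ℕ) < t + 1 ∧
            (lrun Inv fin next s0 (pre σ (i + 1))).flag) ⊆ insert ⟨t, htN⟩
            (univ.filter (fun i : Fin N => (i : ℕ) < t ∧
              (lrun Inv fin next s0 (pre σ (i + 1))).flag)) := by
          intro i hi
          simp only [mem_filter, mem_univ, true_and, mem_insert] at hi ⊢
          rcases Nat.lt_succ_iff_lt_or_eq.1 hi.1 with h' | h'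
          · exact Or.inr ⟨h', hi.2⟩
          · exact Or.inl (Fin.ext h')
        have h1 := (Finset.card_le_card hsub).trans (Finset.card_insert_le _ _)
        have h2 := hcost _ h.1
        rw [hs]
        simp only
        omega
      · intro e he
        rw [hs] at he
        simp only [mem_insert] at he
        rcases he with rfl | he
        · exact ⟨⟨t, htN⟩, by simp, by simp only [hs], rfl⟩
        · obtain ⟨i, hi, hf, rfl⟩ := ih2 e he
          exact ⟨i, by omega, hf, rfl⟩
    · have hs : lrun Inv fin next s0 (pre σ (t + 1)) =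
          ⟨(lrun Inv fin next s0 (pre σ t)).B, (lrun Inv fin next s0 (pre σ t)).st, False⟩ := by
        rw [hstep, lstep, if_neg h]
      constructor
      · have hsub : univ.filter (fun i : Fin N => (i : ℕ) < t + 1 ∧
            (lrun Inv fin next s0 (pre σ (i + 1))).flag) ⊆
            (univ.filter (fun i : Fin N => (i : ℕ) < t ∧
              (lrun Inv fin next s0 (pre σ (i + 1))).flag)) := by
          intro i hi
          simp only [mem_filter, mem_univ, true_and] at hi ⊢
          rcases Nat.lt_succ_iff_lt_or_eq.1 hi.1 with h' | h'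
          · exact ⟨h', hi.2⟩
          · have := hi.2
            rw [h', hs] at this
            exact this.elim
        have h1 := Finset.card_le_card hsub
        rw [hs]
        simp only
        omega
      · intro e he
        rw [hs] at he
        obtain ⟨i, hi, hf, rfl⟩ := ih2 e he
        exact ⟨i, by omega, hf, rfl⟩

theorem half_le_one_sub_exp {x : ℝ} (h0 : 0 ≤ x) (h1 : x ≤ 1) : x / 2 ≤ 1 - Real.exp (-x) := by
  have h2 : x + 1 ≤ Real.exp x := Real.add_one_le_exp x
  have h3 : Real.exp (-x) = (Real.exp x)⁻¹ := Real.exp_neg x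
  have h4 : (Real.exp x)⁻¹ ≤ (x + 1)⁻¹ := inv_anti₀ (by linarith) h2
  have h5 : (x + 1)⁻¹ ≤ 1 - x / 2 := by
    rw [inv_eq_one_div, div_le_iff₀ (by linarith)]
    nlinarith
  linarith

open Classical in
theorem ladder_prob (hN : Fintype.card E = N)
    (Inv : Finset E → St → Prop) (fin : St → Prop) (next : St → St) (s0 : St)
    (h0 : Inv ∅ s0) (W : St → ℝ) (hW : ∀ B s, Inv B s → 0 ≤ W s) (θ : ℝ) (hθ : 0 ≤ θ)
    (t : ℕ) (ht : t ≤ N)
    (hprog : ∀ (l : List E) (B : Finset E) (s : St), l.Nodup → l.length < t → Inv B s → ¬ fin s →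
      ∃ w : ℝ, 0 < w ∧ θ * w ≤ 1 ∧ W (next s) + w ≤ W s ∧
        (N : ℝ) ≤ w * (univ.filter (fun e => e ∉ l ∧ Inv (insert e B) (next s))).card) :
    ((univ.filter (fun σ : Fin N ≃ E => ¬ fin (lrun Inv fin next s0 (pre σ t)).st)).card : ℝ) ≤
      Real.exp (θ * W s0 - θ * t / 2) * Fintype.card (Fin N ≃ E) := by
  let Φ : St → ℝ := fun s => if fin s then 0 else Real.exp (θ * W s)
  have hΦ0 : ∀ s, 0 ≤ Φ s := by
    intro s
    simp only [Φ]
    split_ifs
    · exact le_rfl
    · positivity
  have hΦ1 : ∀ s, Φ s ≤ Real.exp (θ * W s) := by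
    intro s
    simp only [Φ]
    split_ifs
    · positivity
    · exact le_rfl
  let Ψ : List E → ℝ := fun l => Φ (lrun Inv fin next s0 l).st
  have hm := mart (N := N) Ψ (Real.exp (-(θ / 2))) (by positivity) t ht ?_
  · have h1 : Ψ [] ≤ Real.exp (θ * W s0) := by
      simp only [Ψ, lrun, List.foldl_nil]
      exact hΦ1 s0
    have h2 : Real.exp (-(θ / 2)) ^ t * (Fintype.card (Fin N ≃ E) * Ψ []) ≤
        Real.exp (θ * W s0 - θ * t / 2) * Fintype.card (Fin N ≃ E) := by
      rw [← Real.exp_nat_mul]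
      have : Real.exp (θ * W s0 - θ * t / 2) =
          Real.exp (t * -(θ / 2)) * Real.exp (θ * W s0) := by
        rw [← Real.exp_add]
        congr 1
        ring
      rw [this, mul_assoc]
      refine mul_le_mul_of_nonneg_left ?_ (by positivity)
      rw [mul_comm]
      exact mul_le_mul_of_nonneg_right h1 (by positivity)
    refine le_trans ?_ (hm.trans h2)
    rw [Finset.card_filter]
    push_cast
    refine Finset.sum_le_sum fun σ _ => ?_
    by_cases hσ : fin (lrun Inv fin next s0 (pre σ t)).st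
    · simp only [hσ, not_true, if_false]
      exact hΦ0 _
    · simp only [Ψ, Φ, hσ, not_false_iff, if_true, if_false]
      apply Real.one_le_exp
      exact mul_nonneg hθ (hW _ _ (lrun_inv Inv fin next s0 h0 _))
  · intro l hl hlt
    set s := lrun Inv fin next s0 l with hs
    have hinv : Inv s.B s.st := lrun_inv Inv fin next s0 h0 l
    have hlen : (0 : ℝ) ≤ (N : ℝ) - l.length := by
      have : (l.length : ℝ) ≤ N := by exact_mod_cast (hlt.le.trans ht)
      linarith
    by_cases hf : fin s.st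
    · have : ∀ e, Ψ (l ++ [e]) = 0 := by
        intro e
        simp only [Ψ, lrun_concat, ← hs, lstep, hf, not_true, false_and, if_false, Φ, if_true]
      simp only [this, Finset.sum_const_zero]
      exact mul_nonneg (mul_nonneg (by positivity) hlen) (hΦ0 _)
    · obtain ⟨w, hw0, hθw, hWw, hcnt⟩ := hprog l s.B s.st hl hlt hinv hf
      set A := Real.exp (θ * W s.st) with hA
      have hA0 : 0 < A := Real.exp_pos _
      have hΨl : Ψ l = A := by
        simp only [Ψ, Φ, ← hs, hf, if_false, hA]
      set δ := θ * w / 2 with hδ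
      have hb : ∀ e ∈ univ.filter (fun e => e ∉ l),
          Ψ (l ++ [e]) ≤ A - if Inv (insert e s.B) (next s.st) then A * δ else 0 := by
        intro e _
        by_cases hI : Inv (insert e s.B) (next s.st)
        · simp only [Ψ, lrun_concat, ← hs, lstep, hf, hI, not_false_iff, and_self, if_true]
          refine (hΦ1 _).trans ?_
          have h1 : θ * W (next s.st) ≤ θ * W s.st + -(θ * w) := by nlinarith
          have h2 := half_le_one_sub_exp (x := θ * w) (by positivity) hθw
          calc Real.exp (θ * W (next s.st)) ≤ Real.exp (θ * W s.st + -(θ * w)) :=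
                Real.exp_le_exp.2 h1
            _ = A * Real.exp (-(θ * w)) := by rw [Real.exp_add]
            _ ≤ A * (1 - δ) := mul_le_mul_of_nonneg_left (by linarith) hA0.le
            _ = A - A * δ := by ring
        · simp only [Ψ, lrun_concat, ← hs, lstep, hI, and_false, if_false, sub_zero]
          exact hΦ1 _
      refine (Finset.sum_le_sum hb).trans ?_
      rw [Finset.sum_sub_distrib, Finset.sum_const, nsmul_eq_mul, card_not_mem hN l hl,
        ← Finset.sum_filter, Finset.sum_const, nsmul_eq_mul, Finset.filter_filter, hΨl]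
      set c : ℝ := ((univ.filter (fun e => e ∉ l ∧ Inv (insert e s.B) (next s.st))).card : ℝ)
      have h3 : 1 - θ / 2 ≤ Real.exp (-(θ / 2)) := by
        have := Real.add_one_le_exp (-(θ / 2))
        linarith
      have h4 : θ / 2 * ((N : ℝ) - l.length) ≤ c * δ := by
        have h5 : (0 : ℝ) ≤ l.length := by positivity
        have h6 : θ / 2 * ((N : ℝ) - l.length) ≤ θ / 2 * (w * c) :=
          mul_le_mul_of_nonneg_left (by linarith) (by positivity)
        rw [hδ]
        linarith
      have h7 : (1 - θ / 2) * ((N : ℝ) - l.length) ≤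
          Real.exp (-(θ / 2)) * ((N : ℝ) - l.length) := mul_le_mul_of_nonneg_right h3 hlen
      nlinarith

end Pool.Agent.MP_8d021f_pr

end

-- part MP_8d021f_pr.Strat
section

/-!
Builder's strategy: grow many vertex-disjoint binary trees in phases.
-/

open Finset

namespace Pool.Agent.MP_8d021f_pr

/-- Number of trees on `k` vertices kept at the start of phase `k`. -/
def sz (L k : ℕ) : ℕ := L * ∏ i ∈ Ico k L, (160 * (L / i + 1))

theorem sz_succ {L k : ℕ} (h : k < L) : sz L k = 160 * (L / k + 1) * sz L (k + 1) := by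
  unfold sz
  rw [Finset.prod_eq_prod_Ico_succ_bot h]
  ring

theorem sz_last (L : ℕ) : sz L L = L := by simp [sz]

theorem sz_ge (L k : ℕ) : L ≤ sz L k := by
  unfold sz
  refine Nat.le_mul_of_pos_right _ (Finset.prod_pos fun i _ => by positivity)

theorem sz_le {L k : ℕ} (h : 1 ≤ k) : sz L k ≤ sz L 1 := by
  unfold sz
  refine Nat.mul_le_mul_left _ (Finset.prod_le_prod_of_subset_of_one_le' ?_ ?_)
  · exact Finset.Ico_subset_Ico h le_rfl
  · intro i _ _
    exact Nat.succ_le_of_lt (by positivity)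

/-- The graph formed by a finite set of edges. -/
def gr {n : ℕ} (B : Finset (Edge n)) : SimpleGraph (Fin n) :=
  SimpleGraph.fromEdgeSet {e | ∃ x ∈ B, e = (x : Sym2 (Fin n))}

/-- Final stages. -/
def sfin (L : ℕ) (s : ℕ × ℕ × ℕ) : Prop := L ≤ s.1

/-- The next stage. -/
def snext (L : ℕ) (s : ℕ × ℕ × ℕ) : ℕ × ℕ × ℕ :=
  if s.2.1 + 1 < sz L (s.1 + 1) then (s.1, s.2.1 + 1, s.2.2 + 1) else (s.1 + 1, 0, s.2.2 + 1)

/-- The invariant of a stage. -/
def SInv (n L : ℕ) (B : Finset (Edge n)) (s : ℕ × ℕ × ℕ) : Prop :=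
  1 ≤ s.1 ∧ s.1 ≤ L ∧ (s.1 < L → s.2.1 < sz L (s.1 + 1)) ∧ (s.1 = L → s.2.1 = 0) ∧
  s.2.2 ≤ (s.1 - 1) * sz L 1 + s.2.1 ∧
  ∃ (T : Fin n → Finset (Fin n)) (I J : Finset (Fin n)), Disjoint I J ∧
    I.card + s.2.1 = sz L s.1 ∧ J.card = s.2.1 ∧
    (∀ a ∈ I ∪ J, ∀ b ∈ I ∪ J, a ≠ b → Disjoint (T a) (T b)) ∧
    (∀ a ∈ I ∪ J, IsBT (gr B) (T a)) ∧ (∀ a ∈ I, (T a).card = s.1) ∧
    (∀ a ∈ J, (T a).card = s.1 + 1)

theorem sinv_zero {n L : ℕ} (hL : 2 ≤ L) (hn : sz L 1 ≤ n) : SInv n L ∅ (1, 0, 0) := by
  obtain ⟨I, -, hI⟩ := Finset.exists_subset_card_eq (s := (univ : Finset (Fin n))) (n := sz L 1)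
    (by simpa using hn)
  refine ⟨le_rfl, by simp; omega, fun _ => lt_of_lt_of_le (by simp; omega) (sz_ge L _),
    fun _ => rfl, by simp, fun a => {a}, I, ∅, by simp, by simpa using hI, by simp, ?_, ?_, by simp,
    by simp⟩
  · intro a _ b _ hab
    simpa using hab
  · intro a _
    exact isBT_singleton _ _

theorem sinv_final {n L : ℕ} (hL : 1 ≤ L) {B : Finset (Edge n)} {s : ℕ × ℕ × ℕ}
    (h : SInv n L B s) (hf : sfin L s) : gr B ∈ HasBT L := by
  obtain ⟨_, h2, _, h4, _, T, I, J, _, hI, _, _, hT, hc, _⟩ := h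
  have hs : s.1 = L := le_antisymm h2 hf
  rw [h4 hs, hs, sz_last] at hI
  obtain ⟨a, ha⟩ := Finset.card_pos.1 (show 0 < I.card by omega)
  exact ⟨T a, by rw [hc a ha, hs], hT a (by simp [ha])⟩

theorem sinv_cost {n L : ℕ} {B : Finset (Edge n)} {s : ℕ × ℕ × ℕ}
    (h : SInv n L B s) : s.2.2 ≤ L * sz L 1 := by
  obtain ⟨h1, h2, h3, h4, h5, -⟩ := h
  have h6 : s.2.1 ≤ sz L 1 := by
    rcases h2.lt_or_eq with h | h
    · exact (h3 h).le.trans (sz_le (by omega))
    · rw [h4 h]
      exact Nat.zero_le _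
  obtain ⟨k, hk⟩ : ∃ k, s.1 = k + 1 := ⟨s.1 - 1, by omega⟩
  have h7 : (k + 1) * sz L 1 ≤ L * sz L 1 := Nat.mul_le_mul_right _ (by omega)
  rw [hk] at h5
  simp only [Nat.add_sub_cancel] at h5
  nlinarith

theorem gr_mono_insert {n : ℕ} (B : Finset (Edge n)) (e : Edge n) : gr B ≤ gr (insert e B) := by
  apply SimpleGraph.fromEdgeSet_mono
  rintro _ ⟨x, hx, rfl⟩
  exact ⟨x, by simp [hx], rfl⟩

open Classical in
theorem sinv_progress {n L : ℕ} (hn : 4 * (L * sz L 1) ≤ n) (l : List (Edge n))
    (hl : 4 * l.length ≤ n) {B : Finset (Edge n)} {s : ℕ × ℕ × ℕ}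
    (h : SInv n L B s) (hf : ¬ sfin L s) :
    sz L s.1 * s.1 * n ≤
      16 * (univ.filter (fun e => e ∉ l ∧ SInv n L (insert e B) (snext L s))).card := by
  obtain ⟨k, i, c⟩ := s
  obtain ⟨h1, h2, h3, h4, h5, T, I, J, hIJ, hI, hJ, hdisj, hT, hc, hc'⟩ := h
  simp only [sfin, not_le] at hf
  simp only at h1 h2 h3 h4 h5 hI hJ hc hc' ⊢
  have hi := h3 hf
  have hext : ∀ a : Fin n, ∃ A ⊆ T a, a ∈ I → ((T a).card ≤ 2 * A.card ∧ ∀ u ∈ A, ∀ w ∉ T a,
      ∀ H : SimpleGraph (Fin n), gr B ≤ H → H.Adj w u → IsBT H (insert w (T a))) := by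
    intro a
    by_cases ha : a ∈ I
    · obtain ⟨A, hA, hA'⟩ := (hT a (by simp [ha])).extend
      exact ⟨A, hA, fun _ => hA'⟩
    · exact ⟨∅, by simp, fun h => (ha h).elim⟩
  choose A hAT hA using hext
  let U : Finset (Fin n) := (I ∪ J).biUnion T
  let Tc : Finset (Fin n) := l.toFinset.biUnion (fun e => (e : Sym2 (Fin n)).toFinset)
  let Fr : Finset (Fin n) := (U ∪ Tc)ᶜ
  let Act : Finset (Fin n) := I.biUnion A
  have hU : U.card ≤ L * sz L 1 := by
    refine (Finset.card_biUnion_le_card_mul _ _ L ?_).trans ?_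
    · intro a ha
      rcases Finset.mem_union.1 ha with ha | ha
      · rw [hc a ha]; omega
      · rw [hc' a ha]; omega
    · rw [Finset.card_union_of_disjoint hIJ, hJ, hI, mul_comm]
      exact Nat.mul_le_mul_left _ (sz_le h1)
  have hTc : Tc.card ≤ 2 * l.length := by
    refine (Finset.card_biUnion_le_card_mul _ _ 2 ?_).trans ?_
    · intro e _
      rw [Sym2.card_toFinset]
      split_ifs <;> omega
    · rw [mul_comm]
      exact Nat.mul_le_mul_left _ (List.toFinset_card_le l)
  have hFr : n ≤ 4 * Fr.card := by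
    have h6 : Fr.card = n - (U ∪ Tc).card := by
      simp only [Fr, Finset.card_compl, Fintype.card_fin]
    have h7 := Finset.card_union_le U Tc
    omega
  have hAct : I.card * k ≤ 2 * Act.card := by
    have : Act.card = ∑ a ∈ I, (A a).card := by
      apply Finset.card_biUnion
      intro a ha b hb hab
      exact Finset.disjoint_of_subset_left (hAT a) (Finset.disjoint_of_subset_right (hAT b)
        (hdisj a (by simp [Finset.mem_coe.1 ha]) b (by simp [Finset.mem_coe.1 hb]) hab))
    rw [this, Finset.mul_sum]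
    calc I.card * k = ∑ a ∈ I, k := by simp
      _ ≤ _ := Finset.sum_le_sum fun a ha => by
        have := (hA a ha).1
        rwa [hc a ha] at this
  have hIc : sz L k ≤ 2 * I.card := by
    have h6 := sz_succ hf
    have h7 : 2 * sz L (k + 1) ≤ 160 * (L / k + 1) * sz L (k + 1) :=
      Nat.mul_le_mul_right _ (by generalize L / k = q; omega)
    omega
  have hActU : ∀ u ∈ Act, u ∈ U := by
    intro u hu
    obtain ⟨a, ha, hu⟩ := Finset.mem_biUnion.1 hu
    exact Finset.mem_biUnion.2 ⟨a, by simp [ha], hAT a hu⟩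
  have hFrU : ∀ w ∈ Fr, w ∉ U := by
    intro w hw h
    exact (Finset.mem_compl.1 hw) (by simp [h])
  have hmap : (Act ×ˢ Fr).card ≤
      ((univ.filter (fun e => e ∉ l ∧ SInv n L (insert e B) (snext L (k, i, c)))).image
        (fun e : Edge n => (e : Sym2 (Fin n)))).card := by
    refine Finset.card_le_card_of_injOn (fun p => s(p.1, p.2)) ?_ ?_
    · rintro ⟨u, w⟩ hp
      simp only [coe_product, Set.mem_prod, mem_coe] at hp
      obtain ⟨hu, hw⟩ := hp
      have huw : u ≠ w := fun h => hFrU w hw (h ▸ hActU u hu)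
      have hwU := hFrU w hw
      obtain ⟨a, ha, hua⟩ := Finset.mem_biUnion.1 hu
      let e : Edge n := ⟨s(u, w), by simpa using huw⟩
      simp only [coe_image, Set.mem_image, mem_coe, mem_filter, mem_univ, true_and]
      refine ⟨e, ⟨?_, ?_⟩, rfl⟩
      · intro hel
        apply Finset.mem_compl.1 hw
        refine Finset.mem_union_right _ (Finset.mem_biUnion.2 ⟨e, by simpa using hel, ?_⟩)
        simp [e]
      · have hwT : ∀ b ∈ I ∪ J, w ∉ T b := fun b hb h => hwU (Finset.mem_biUnion.2 ⟨b, hb, h⟩)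
        have haJ : a ∉ J := Finset.disjoint_left.1 hIJ ha
        have hnew : IsBT (gr (insert e B)) (insert w (T a)) := by
          refine (hA a ha).2 u hua w (hwT a (by simp [ha])) _ (gr_mono_insert B e) ?_
          unfold gr
          rw [SimpleGraph.fromEdgeSet_adj]
          exact ⟨⟨e, by simp, by simp [e, Sym2.eq_swap]⟩, huw.symm⟩
        let T' := Function.update T a (insert w (T a))
        have hT'a : T' a = insert w (T a) := by simp [T']
        have hT'b : ∀ b, b ≠ a → T' b = T b := fun b hb => by simp [T', Function.update_of_ne hb]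
        have hd' : ∀ x ∈ I ∪ J, ∀ y ∈ I ∪ J, x ≠ y → Disjoint (T' x) (T' y) := by
          intro x hx y hy hxy
          by_cases hxa : x = a
          · subst hxa
            rw [hT'a, hT'b y hxy.symm, Finset.disjoint_insert_left]
            exact ⟨hwT y hy, hdisj x hx y hy hxy⟩
          · by_cases hya : y = a
            · subst hya
              rw [hT'a, hT'b x hxy, Finset.disjoint_insert_right]
              exact ⟨hwT x hx, hdisj x hx y hy hxy⟩
            · rw [hT'b x hxa, hT'b y hya]
              exact hdisj x hx y hy hxy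
        have hb' : ∀ x ∈ I ∪ J, IsBT (gr (insert e B)) (T' x) := by
          intro x hx
          by_cases hxa : x = a
          · rw [hxa, hT'a]
            exact hnew
          · rw [hT'b x hxa]
            exact (hT x hx).mono (gr_mono_insert B e)
        have hcJ : ∀ x ∈ insert a J, (T' x).card = k + 1 := by
          intro x hx
          rcases Finset.mem_insert.1 hx with rfl | hx
          · rw [hT'a, Finset.card_insert_of_notMem (hwT x (by simp [ha])), hc x ha]
          · rw [hT'b x (fun h => haJ (h ▸ hx)), hc' x hx]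
        have hsub1 : insert a J ⊆ I ∪ J := by
          intro x hx
          rcases Finset.mem_insert.1 hx with rfl | hx
          · simp [ha]
          · simp [hx]
        unfold snext
        split_ifs with hnext
        · have hsub : I.erase a ∪ insert a J ⊆ I ∪ J :=
            Finset.union_subset ((Finset.erase_subset _ _).trans Finset.subset_union_left) hsub1
          refine ⟨h1, h2, fun _ => hnext, fun h => by simp only at h; omega,
            by simp only; omega, T', I.erase a, insert a J, ?_, ?_, ?_,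
            fun x hx y hy => hd' x (hsub hx) y (hsub hy), fun x hx => hb' x (hsub hx), ?_, hcJ⟩
          · rw [Finset.disjoint_insert_right]
            exact ⟨by simp, Finset.disjoint_of_subset_left (Finset.erase_subset _ _) hIJ⟩
          · have := Finset.card_erase_add_one ha
            simp only
            omega
          · rw [Finset.card_insert_of_notMem haJ, hJ]
          · intro x hx
            rw [Finset.mem_erase] at hx
            rw [hT'b x hx.1, hc x hx.2]
        · simp only at hnext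
          have hsub : insert a J ∪ ∅ ⊆ I ∪ J := by simpa using hsub1
          refine ⟨by simp, hf, fun _ => lt_of_lt_of_le (by simp only; omega) (sz_ge L _),
            fun _ => rfl, ?_, T', insert a J, ∅, by simp, ?_, by simp,
            fun x hx y hy => hd' x (hsub hx) y (hsub hy), fun x hx => hb' x (hsub hx), hcJ,
            by simp⟩
          · have h6 : sz L (k + 1) ≤ sz L 1 := sz_le (by omega)
            obtain ⟨k', rfl⟩ : ∃ k', k = k' + 1 := ⟨k - 1, by omega⟩
            simp only [Nat.add_sub_cancel] at h5 ⊢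
            nlinarith
          · rw [Finset.card_insert_of_notMem haJ, hJ]
            simp only
            omega
    · rintro ⟨u, w⟩ hp ⟨u', w'⟩ hp' h
      simp only [coe_product, Set.mem_prod, mem_coe] at hp hp'
      simp only [Sym2.eq_iff] at h
      rcases h with ⟨rfl, rfl⟩ | ⟨rfl, rfl⟩
      · rfl
      · exact (hFrU _ hp.2 (hActU _ hp'.1)).elim
  have hfin := hmap.trans Finset.card_image_le
  rw [Finset.card_product] at hfin
  calc sz L k * k * n ≤ (2 * I.card) * k * (4 * Fr.card) := by gcongr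
    _ = 8 * (I.card * k) * Fr.card := by ring
    _ ≤ 8 * (2 * Act.card) * Fr.card := by gcongr
    _ = 16 * (Act.card * Fr.card) := by ring
    _ ≤ _ := by gcongr

end Pool.Agent.MP_8d021f_pr

end

-- part MP_8d021f_pr.Main
section

/-!
Numerical estimates and the two probabilistic statements.
-/

open Finset Filter Topology

namespace Pool.Agent.MP_8d021f_pr

theorem pow_le_three_pow_mul_factorial (L : ℕ) : L ^ L ≤ 3 ^ L * L.factorial := by
  have h1 := Real.pow_div_factorial_le_exp (L : ℝ) (Nat.cast_nonneg L) L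
  have h2 : Real.exp (L : ℝ) ≤ 3 ^ L := by
    rw [← Real.exp_one_pow]
    exact pow_le_pow_left₀ (Real.exp_pos 1).le (Real.exp_one_lt_d9.le.trans (by norm_num)) L
  have h3 : (0 : ℝ) < L.factorial := by exact_mod_cast L.factorial_pos
  rw [div_le_iff₀ h3] at h1
  have : ((L : ℝ)) ^ L ≤ 3 ^ L * L.factorial := h1.trans (mul_le_mul_of_nonneg_right h2 h3.le)
  exact_mod_cast this

theorem sz_bound (L : ℕ) : L * sz L 1 ≤ 3840 ^ L := by
  rcases Nat.eq_zero_or_pos L with rfl | hL
  · simp
  obtain ⟨m, rfl⟩ : ∃ m, L = m + 1 := ⟨L - 1, by omega⟩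
  set P := ∏ i ∈ Ico 1 (m + 1), (160 * ((m + 1) / i + 1)) with hP
  have h1 : P * m.factorial ≤ (320 * (m + 1)) ^ m := by
    rw [← Finset.prod_Ico_id_eq_factorial, hP, ← Finset.prod_mul_distrib]
    calc _ ≤ ∏ i ∈ Ico 1 (m + 1), (320 * (m + 1)) := by
          refine Finset.prod_le_prod' fun i hi => ?_
          rw [Finset.mem_Ico] at hi
          have := Nat.div_mul_le_self (m + 1) i
          nlinarith
      _ = _ := by simp
  have h2 := pow_le_three_pow_mul_factorial (m + 1)
  have h3 : P * (m + 1).factorial ≤ 960 ^ (m + 1) * (m + 1).factorial := by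
    calc P * (m + 1).factorial = (P * m.factorial) * (m + 1) := by
          rw [Nat.factorial_succ]; ring
      _ ≤ (320 * (m + 1)) ^ m * (m + 1) := by gcongr
      _ = 320 ^ m * (m + 1) ^ (m + 1) := by rw [mul_pow]; ring
      _ ≤ 320 ^ (m + 1) * (3 ^ (m + 1) * (m + 1).factorial) := by
          gcongr
          · norm_num
          · omega
      _ = _ := by rw [← mul_assoc, ← mul_pow]; norm_num
  have h4 : P ≤ 960 ^ (m + 1) := Nat.le_of_mul_le_mul_right h3 (Nat.factorial_pos _)
  have h5 : m + 1 ≤ 2 ^ (m + 1) := Nat.lt_two_pow_self.le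
  calc (m + 1) * sz (m + 1) 1 = (m + 1) * (m + 1) * P := by rw [sz, ← hP]; ring
    _ ≤ 2 ^ (m + 1) * 2 ^ (m + 1) * 960 ^ (m + 1) := by gcongr
    _ = _ := by rw [← mul_pow, ← mul_pow]; norm_num

/-- Builder's strategy. -/
def strat (n L : ℕ) (l : List (Edge n)) : Prop :=
  (lrun (SInv n L) (sfin L) (snext L) (1, 0, 0) l).flag

theorem snext_cost (L : ℕ) (s : ℕ × ℕ × ℕ) : s.2.2 + 1 ≤ (snext L s).2.2 := by
  unfold snext
  split_ifs <;> simp

theorem strat_budget (n L t : ℕ) (ht : t ≤ n.choose 2) (hL : 2 ≤ L) (hn : sz L 1 ≤ n)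
    (σ : EdgeOrder n) : (boughtIdx (strat n L) σ t).ncard ≤ L * sz L 1 := by
  classical
  have h1 := (lrun_bought (SInv n L) (sfin L) (snext L) (1, 0, 0) (fun s => s.2.2)
    (fun s _ => snext_cost L s) σ t ht).1
  have h2 := sinv_cost (lrun_inv (SInv n L) (sfin L) (snext L) (1, 0, 0) (sinv_zero hL hn) (pre σ t))
  have h3 : boughtIdx (strat n L) σ t = ↑(univ.filter (fun i : Fin (n.choose 2) => (i : ℕ) < t ∧
      (lrun (SInv n L) (sfin L) (snext L) (1, 0, 0) (pre σ (i + 1))).flag)) := by
    ext i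
    simp only [coe_filter, mem_univ, true_and]
    rfl
  rw [h3, Set.ncard_coe_finset]
  simp only [add_zero] at h1
  exact le_trans (le_of_eq (by congr)) (h1.trans h2)

theorem strat_success (n L t : ℕ) (ht : t ≤ n.choose 2) (hL : 2 ≤ L) (hn : sz L 1 ≤ n)
    (σ : EdgeOrder n) (h : sfin L (lrun (SInv n L) (sfin L) (snext L) (1, 0, 0) (pre σ t)).st) :
    boughtGraph (strat n L) σ t ∈ HasBT L := by
  have h1 := (lrun_bought (SInv n L) (sfin L) (snext L) (1, 0, 0) (fun s => s.2.2)
    (fun s _ => snext_cost L s) σ t ht).2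
  obtain ⟨S, hS, hT⟩ := sinv_final (by omega)
    (lrun_inv (SInv n L) (sfin L) (snext L) (1, 0, 0) (sinv_zero hL hn) (pre σ t)) h
  refine ⟨S, hS, hT.mono ?_⟩
  apply SimpleGraph.fromEdgeSet_mono
  rintro _ ⟨x, hx, rfl⟩
  obtain ⟨i, hi, hf, rfl⟩ := h1 x hx
  exact ⟨i, ⟨hi, hf⟩, rfl⟩

theorem quarter_le_choose (n : ℕ) : n / 4 ≤ n.choose 2 := by
  rw [Nat.choose_two_right]
  rcases Nat.lt_or_ge n 4 with h | h
  · rw [Nat.div_eq_of_lt h]
    exact Nat.zero_le _
  · have : n * 1 ≤ n * (n - 1) := Nat.mul_le_mul_left _ (by omega)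
    omega

open Classical in
theorem strat_prob (n L : ℕ) (hL : 2 ≤ L) (hn : 4 * (L * sz L 1) ≤ n) (hn' : 15 ≤ n) :
    ((univ.filter (fun σ : EdgeOrder n => boughtGraph (strat n L) σ (n / 4) ∉ HasBT L)).card : ℝ) ≤
      Real.exp (-(L / 160)) * Fintype.card (EdgeOrder n) := by
  have hsz : sz L 1 ≤ n := by nlinarith
  have hn0 : (0 : ℝ) < n := by exact_mod_cast (show 0 < n by omega)
  have hL0 : (0 : ℝ) < L := by exact_mod_cast (show 0 < L by omega)
  let w : ℕ → ℝ := fun k => 8 * n / (sz L k * k)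
  let d : ℝ := n / (20 * L)
  have hwd : ∀ k, 1 ≤ k → k < L → sz L (k + 1) * w k ≤ d := by
    intro k hk1 hk
    have h1 : (0 : ℝ) < sz L (k + 1) := by
      exact_mod_cast lt_of_lt_of_le (show 0 < L by omega) (sz_ge L _)
    have h2 : L ≤ (L / k + 1) * k := by
      have := Nat.lt_div_mul_add (a := L) (b := k) (by omega)
      nlinarith
    have h3 : (L : ℝ) ≤ ((L / k + 1 : ℕ) : ℝ) * k := by exact_mod_cast h2
    have hk0 : (0 : ℝ) < k := by exact_mod_cast hk1
    simp only [w, d, sz_succ hk]
    generalize L / k + 1 = q at h3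
    have hq : (0 : ℝ) < q := by
      by_contra h
      have : (q : ℝ) * k ≤ 0 := mul_nonpos_of_nonpos_of_nonneg (not_lt.1 h) hk0.le
      linarith
    push_cast
    rw [← mul_div_assoc, div_le_div_iff₀ (by positivity) (by positivity)]
    have : (0 : ℝ) ≤ 160 * sz L (k + 1) * n := by positivity
    nlinarith
  have hw0 : ∀ k, 0 ≤ w k := fun k => by simp only [w]; positivity
  have hd0 : 0 ≤ d := by simp only [d]; positivity
  let W : ℕ × ℕ × ℕ → ℝ := fun s => ((L : ℝ) - s.1) * d - s.2.1 * w s.1
  have key := ladder_prob (card_edge n) (SInv n L) (sfin L) (snext L) (1, 0, 0) (sinv_zero hL hsz)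
    W ?_ (L / (8 * n)) (by positivity) (n / 4) (quarter_le_choose n) ?_
  · refine le_trans ?_ (key.trans ?_)
    · refine Nat.cast_le.2 (Finset.card_le_card ?_)
      intro σ hσ
      simp only [mem_filter, mem_univ, true_and] at hσ ⊢
      exact fun h => hσ (strat_success n L _ (quarter_le_choose n) hL hsz σ h)
    · refine mul_le_mul_of_nonneg_right (Real.exp_le_exp.2 ?_) (by positivity)
      have h1 : n ≤ 5 * (n / 4) := by omega
      have h2 : (n : ℝ) ≤ 5 * (n / 4 : ℕ) := by exact_mod_cast h1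
      have h3 : W (1, 0, 0) ≤ n / 20 := by
        simp only [W, d, Nat.cast_one, Nat.cast_zero, zero_mul, sub_zero]
        rw [← mul_div_assoc, div_le_div_iff₀ (by positivity) (by positivity)]
        nlinarith
      have h4 : (L : ℝ) / (8 * n) * (W (1, 0, 0) - (n / 4 : ℕ) / 2) ≤ L / (8 * n) * (-(n / 20)) :=
        mul_le_mul_of_nonneg_left (by linarith) (by positivity)
      have h5 : (L : ℝ) / (8 * n) * (-(n / 20)) = -(L / 160) := by
        field_simp
        ring
      linarith
  · rintro B ⟨k, i, c⟩ ⟨h1, h2, h3, h4, -⟩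
    simp only at h1 h2 h3 h4
    simp only [W]
    rcases h2.lt_or_eq with h | h
    · have h5 := hwd k h1 h
      have h6 : (i : ℝ) ≤ sz L (k + 1) := by exact_mod_cast (h3 h).le
      have h7 : (k : ℝ) + 1 ≤ L := by exact_mod_cast h
      have := hw0 k
      nlinarith
    · simp [h4 h, h]
  · rintro l B ⟨k, i, c⟩ - hlt hinv hf
    have hprog := sinv_progress hn l (by omega) hinv hf
    obtain ⟨h1, h2, h3, h4, -⟩ := hinv
    simp only [sfin, not_le] at hf
    simp only at h1 h2 h3 h4 hprog
    have hk0 : (1 : ℝ) ≤ k := by exact_mod_cast h1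
    have hs : (L : ℝ) ≤ sz L k := by exact_mod_cast sz_ge L k
    have hs0 : (0 : ℝ) < sz L k := by linarith
    refine ⟨w k, by simp only [w]; positivity, ?_, ?_, ?_⟩
    · simp only [w]
      rw [div_mul_div_comm, div_le_one (by positivity)]
      have : (L : ℝ) ≤ sz L k * k := by nlinarith
      nlinarith
    · unfold snext
      split_ifs with hnext
      · simp only [W]
        push_cast
        linarith
      · simp only at hnext
        have h5 : i + 1 = sz L (k + 1) := by
          have := h3 hf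
          omega
        have h6 := hwd k h1 hf
        rw [← h5] at h6
        simp only [W]
        push_cast at h6 ⊢
        linarith
    · have h5 : (sz L k : ℝ) * k * n ≤ 16 * (univ.filter (fun e => e ∉ l ∧
          SInv n L (insert e B) (snext L (k, i, c)))).card := by exact_mod_cast hprog
      have h6 : ((n.choose 2 : ℕ) : ℝ) ≤ n * n / 2 := by
        rw [Nat.cast_choose_two]
        nlinarith
      simp only [w]
      rw [div_mul_eq_mul_div, le_div_iff₀ (by positivity)]
      have h7 : ((n.choose 2 : ℕ) : ℝ) * (sz L k * k) ≤ n * n / 2 * (sz L k * k) :=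
        mul_le_mul_of_nonneg_right h6 (by positivity)
      have h8 := mul_le_mul_of_nonneg_left h5 hn0.le
      refine h7.trans ?_
      have h9 : (n : ℝ) * n / 2 * (sz L k * k) ≤ 8 * (n : ℝ) * ((univ.filter (fun e => e ∉ l ∧
          SInv n L (insert e B) (snext L (k, i, c)))).card : ℝ) := by linarith
      exact h9.trans (le_of_eq (by congr))

open Classical in
theorem early_prob (B n L : ℕ) (hB : 1 ≤ B) (hL : 1 ≤ L) (hn : n < B ^ (L + 1)) (hn' : 6 ≤ n) :
    ((univ.filter (fun σ : EdgeOrder n => graphAt σ (n / (48 * B)) ∈ HasBT L)).card : ℝ) ≤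
      12 * B ^ 2 * (1 / 2) ^ L * Fintype.card (EdgeOrder n) := by
  have hn0 : (6 : ℝ) ≤ n := by exact_mod_cast hn'
  have hB0 : (1 : ℝ) ≤ B := by exact_mod_cast hB
  set t := n / (48 * B) with htdef
  have ht1 : (t : ℝ) ≤ n / (48 * B) := by
    have := @Nat.cast_div_le ℝ _ _ _ n (48 * B)
    push_cast at this
    exact this
  have ht2 : (t : ℝ) ≤ n / 48 := ht1.trans (by gcongr; linarith)
  have hN : (n : ℝ) * n / 4 ≤ ((n.choose 2 : ℕ) : ℝ) - t := by
    rw [Nat.cast_choose_two]
    nlinarith
  have hlt : t < n.choose 2 := by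
    have : (t : ℝ) < (n.choose 2 : ℕ) := by nlinarith
    exact_mod_cast this
  refine (first_moment n L t hlt).trans ?_
  rw [← mul_assoc]
  refine mul_le_mul_of_nonneg_right ?_ (by positivity)
  obtain ⟨m, rfl⟩ : ∃ m, L = m + 1 := ⟨L - 1, by omega⟩
  have hr : (t : ℝ) / ((n.choose 2 : ℕ) - t) ≤ 1 / (12 * B * n) := by
    calc (t : ℝ) / ((n.choose 2 : ℕ) - t) ≤ (n / (48 * B)) / (n * n / 4) := by
          gcongr
      _ = _ := by
          field_simp
          ring
  have hr0 : 0 ≤ (t : ℝ) / ((n.choose 2 : ℕ) - t) := by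
    have : (0 : ℝ) ≤ ((n.choose 2 : ℕ) : ℝ) - t := le_trans (by positivity) hN
    positivity
  have hc : n.choose (m + 1) * ((m + 1) * (m + 1) ^ (m + 1)) ≤
      B ^ (m + 2) * 6 ^ (m + 1) * n ^ m := by
    have h1 := pow_le_three_pow_mul_factorial (m + 1)
    have h2 : (m + 1).factorial * n.choose (m + 1) ≤ n ^ (m + 1) := by
      rw [← Nat.descFactorial_eq_factorial_mul_choose]
      exact Nat.descFactorial_le_pow _ _
    have h5 : m + 1 ≤ 2 ^ (m + 1) := Nat.lt_two_pow_self.le
    calc n.choose (m + 1) * ((m + 1) * (m + 1) ^ (m + 1))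
        ≤ n.choose (m + 1) * (2 ^ (m + 1) * (3 ^ (m + 1) * (m + 1).factorial)) := by gcongr
      _ = 6 ^ (m + 1) * ((m + 1).factorial * n.choose (m + 1)) := by
          rw [show (6 : ℕ) = 2 * 3 by norm_num, mul_pow]; ring
      _ ≤ 6 ^ (m + 1) * n ^ (m + 1) := by gcongr
      _ = n * 6 ^ (m + 1) * n ^ m := by ring
      _ ≤ _ := by gcongr
  have hc' : ((n.choose (m + 1) * ((m + 1) * (m + 1) ^ (m + 1)) : ℕ) : ℝ) ≤
      (B : ℝ) ^ (m + 2) * 6 ^ (m + 1) * n ^ m := by exact_mod_cast hc
  simp only [Nat.add_sub_cancel]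
  calc _ ≤ ((B : ℝ) ^ (m + 2) * 6 ^ (m + 1) * n ^ m) * (1 / (12 * B * n)) ^ m := by gcongr
    _ = 6 * B ^ 2 * (B * 6 * n * (1 / (12 * B * n))) ^ m := by
        simp only [mul_pow]
        ring
    _ = 6 * B ^ 2 * (1 / 2) ^ m := by
        congr 2
        field_simp
        ring
    _ = _ := by ring

open Classical in
theorem aas_of_bound (A : ∀ n : ℕ, Set (EdgeOrder n)) (δ : ℕ → ℝ) (hδ : Tendsto δ atTop (𝓝 0))
    (h : ∀ᶠ n in atTop, ((univ.filter (fun σ : EdgeOrder n => σ ∉ A n)).card : ℝ) ≤
      δ n * Fintype.card (EdgeOrder n)) : AAS A := by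
  have hpos : ∀ n, (0 : ℝ) < Fintype.card (EdgeOrder n) := by
    intro n
    have : Nonempty (EdgeOrder n) := ⟨(Fintype.equivFinOfCardEq (card_edge n)).symm⟩
    exact_mod_cast Fintype.card_pos
  have hp : ∀ n, prob (A n) = 1 - ((univ.filter (fun σ : EdgeOrder n => σ ∉ A n)).card : ℝ) /
      Fintype.card (EdgeOrder n) := by
    intro n
    have h1 : A n = ↑(univ.filter (fun σ : EdgeOrder n => σ ∈ A n)) := by
      ext σ
      simp
    have h2 := Finset.card_filter_add_card_filter_not (s := (univ : Finset (EdgeOrder n)))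
      (fun σ => σ ∈ A n)
    rw [Finset.card_univ] at h2
    have h3 : ((univ.filter (fun σ : EdgeOrder n => σ ∈ A n)).card : ℝ) +
        (univ.filter (fun σ : EdgeOrder n => σ ∉ A n)).card = Fintype.card (EdgeOrder n) := by
      exact_mod_cast h2
    have h4 := hpos n
    unfold prob
    rw [Nat.card_eq_fintype_card]
    conv_lhs => rw [h1, Set.ncard_coe_finset]
    field_simp
    linarith
  have h1 : Tendsto (fun n => 1 - δ n) atTop (𝓝 1) := by
    simpa using hδ.const_sub 1
  refine tendsto_of_tendsto_of_tendsto_of_le_of_le' h1 tendsto_const_nhds ?_ ?_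
  · filter_upwards [h] with n hn
    rw [hp n]
    have := (div_le_iff₀ (hpos n)).2 hn
    linarith
  · refine Eventually.of_forall fun n => ?_
    rw [hp n]
    have := hpos n
    have : (0 : ℝ) ≤ ((univ.filter (fun σ : EdgeOrder n => σ ∉ A n)).card : ℝ) /
      Fintype.card (EdgeOrder n) := by positivity
    linarith

end Pool.Agent.MP_8d021f_pr

end

-- part MP_8d021f_pr.Final
section

/-!
Asymptotics and assembly.
-/

open Finset Filter Topology Asymptotics

namespace Pool.Agent.MP_8d021f_pr

theorem tendsto_natLog (B : ℕ) (hB : 1 < B) : Tendsto (fun n => Nat.log B n) atTop atTop := by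
  refine tendsto_atTop.2 fun M => ?_
  filter_upwards [eventually_ge_atTop (B ^ M)] with n hn
  exact Nat.le_log_of_pow_le hB hn

theorem budget_pow (K n : ℕ) (hn : n ≠ 0) :
    (Nat.log (3840 ^ K) n * sz (Nat.log (3840 ^ K) n) 1) ^ K ≤ n := by
  set L := Nat.log (3840 ^ K) n
  calc (L * sz L 1) ^ K ≤ (3840 ^ L) ^ K := Nat.pow_le_pow_left (sz_bound L) K
    _ = (3840 ^ K) ^ L := by rw [← pow_mul, ← pow_mul, mul_comm]
    _ ≤ n := Nat.pow_log_le_self _ hn

theorem sq_le_of_pow_le {b K n : ℕ} (hK : 2 ≤ K) (h : b ^ K ≤ n) : b ^ 2 ≤ n := by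
  rcases Nat.eq_zero_or_pos b with rfl | hb
  · simp
  · exact (Nat.pow_le_pow_right hb hK).trans h

theorem quarter_theta : (fun n : ℕ => ((n / 4 : ℕ) : ℝ)) =Θ[atTop] (fun n : ℕ => (n : ℝ)) := by
  constructor
  · refine IsBigO.of_bound 1 (Eventually.of_forall fun n => ?_)
    simp only [Real.norm_natCast, one_mul, Nat.cast_le]
    omega
  · refine IsBigO.of_bound 5 ?_
    filter_upwards [eventually_ge_atTop 15] with n hn
    simp only [Real.norm_natCast]
    have : n ≤ 5 * (n / 4) := by omega
    exact_mod_cast this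

theorem budget_littleO (b : ℕ → ℕ) (hb : ∀ n, n ≠ 0 → b n ^ 2 ≤ n) :
    (fun n : ℕ => (b n : ℝ)) =o[atTop] fun n : ℕ => ((n / 4 : ℕ) : ℝ) / Real.log n := by
  have h1 := (isLittleO_log_rpow_atTop (r := 1 / 2) (by norm_num)).comp_tendsto
    tendsto_natCast_atTop_atTop
  refine IsLittleO.of_bound fun c hc => ?_
  filter_upwards [h1.bound (show 0 < c / 5 by positivity), eventually_ge_atTop 15] with n h2 hn
  have hn0 : (15 : ℝ) ≤ n := by exact_mod_cast hn
  have hlog : 0 < Real.log n := Real.log_pos (by linarith)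
  have h3 : (n : ℝ) ≤ 5 * (n / 4 : ℕ) := by
    have : n ≤ 5 * (n / 4) := by omega
    exact_mod_cast this
  simp only [Function.comp, Real.norm_eq_abs] at h2
  rw [abs_of_pos hlog, abs_of_nonneg (by positivity), ← Real.sqrt_eq_rpow] at h2
  have h4 : (b n : ℝ) ≤ Real.sqrt n := by
    apply Real.le_sqrt_of_sq_le
    exact_mod_cast hb n (by omega)
  have h5 : Real.sqrt n * Real.sqrt n = n := Real.mul_self_sqrt (by positivity)
  rw [Real.norm_natCast, Real.norm_eq_abs, abs_of_nonneg (by positivity), ← mul_div_assoc,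
    le_div_iff₀ hlog]
  calc (b n : ℝ) * Real.log n ≤ Real.sqrt n * (c / 5 * Real.sqrt n) := by gcongr
    _ = c / 5 * n := by rw [mul_left_comm, h5]
    _ ≤ c / 5 * (5 * (n / 4 : ℕ)) := by gcongr
    _ = _ := by ring

theorem boughtGraph_le {n : ℕ} (S : List (Edge n) → Prop) (σ : EdgeOrder n) (t : ℕ) :
    boughtGraph S σ t ≤ graphAt σ t := by
  apply SimpleGraph.fromEdgeSet_mono
  rintro e ⟨i, hi, rfl⟩
  exact ⟨i, hi.1, rfl⟩

theorem hasBT_mono {V : Type} [DecidableEq V] {L : ℕ} {G H : SimpleGraph V} (h : G ≤ H)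
    (hG : G ∈ HasBT L) : H ∈ HasBT L := by
  obtain ⟨S, h1, h2⟩ := hG
  exact ⟨S, h1, h2.mono h⟩

theorem eventually_good (K : ℕ) (hK : 2 ≤ K) : ∀ᶠ n in atTop, 2 ≤ Nat.log (3840 ^ K) n ∧
    4 * (Nat.log (3840 ^ K) n * sz (Nat.log (3840 ^ K) n) 1) ≤ n ∧ 16 ≤ n := by
  have hB : 1 < 3840 ^ K := Nat.one_lt_pow (by omega) (by norm_num)
  filter_upwards [(tendsto_natLog _ hB).eventually_ge_atTop 2, eventually_ge_atTop 16] with n h1 h2
  refine ⟨h1, ?_, h2⟩
  have := sq_le_of_pow_le hK (budget_pow K n (by omega))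
  by_contra h
  nlinarith

theorem tendsto_exp_log (B : ℕ) (hB : 1 < B) :
    Tendsto (fun n => Real.exp (-((Nat.log B n : ℝ) / 160))) atTop (𝓝 0) := by
  refine Real.tendsto_exp_neg_atTop_nhds_zero.comp ?_
  exact (tendsto_natCast_atTop_atTop.comp (tendsto_natLog B hB)).atTop_div_const (by norm_num)

theorem aas_success (K : ℕ) (hK : 2 ≤ K) :
    AAS fun n => {σ | boughtGraph (strat n (Nat.log (3840 ^ K) n)) σ (n / 4) ∈
      HasBT (Nat.log (3840 ^ K) n)} := by
  have hB : 1 < 3840 ^ K := Nat.one_lt_pow (by omega) (by norm_num)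
  refine aas_of_bound _ _ (tendsto_exp_log _ hB) ?_
  filter_upwards [eventually_good K hK] with n ⟨h1, h2, h3⟩
  have := strat_prob n _ h1 h2 (by omega)
  exact le_trans (le_of_eq (by congr)) this

theorem aas_hitting (K : ℕ) (hK : 2 ≤ K) :
    AAS fun n => {σ | ∃ h : ℕ, IsLeast {s | graphAt σ s ∈ HasBT (Nat.log (3840 ^ K) n)} h ∧
      (1 / (48 * (3840 ^ K : ℕ)) : ℝ) * n ≤ h ∧ (h : ℝ) ≤ 1 * n} := by
  classical
  have hB : 1 < 3840 ^ K := Nat.one_lt_pow (by omega) (by norm_num)
  set B := 3840 ^ K with hBdef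
  have hlim : Tendsto (fun n => 12 * (B : ℝ) ^ 2 * (1 / 2) ^ (Nat.log B n) +
      Real.exp (-((Nat.log B n : ℝ) / 160))) atTop (𝓝 0) := by
    have h1 := ((tendsto_pow_atTop_nhds_zero_of_lt_one (r := (1 / 2 : ℝ)) (by norm_num)
      (by norm_num)).comp (tendsto_natLog B hB)).const_mul (12 * (B : ℝ) ^ 2)
    simpa using h1.add (tendsto_exp_log B hB)
  refine aas_of_bound _ _ hlim ?_
  filter_upwards [eventually_good K hK] with n ⟨h1, h2, h3⟩
  have e1 := strat_prob n _ h1 h2 (by omega)
  have e2 := early_prob B n (Nat.log B n) hB.le (le_trans (by norm_num) h1) (Nat.lt_pow_succ_log_self hB n)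
    (by omega)
  rw [add_mul]
  refine le_trans ?_ (add_le_add e2 e1)
  rw [← Nat.cast_add, Nat.cast_le]
  refine le_trans (Finset.card_le_card ?_) (Finset.card_union_le _ _)
  intro σ hσ
  simp only [mem_filter, mem_univ, true_and, mem_union] at hσ ⊢
  by_contra hcon
  rw [not_or, not_not] at hcon
  obtain ⟨c1, c2⟩ := hcon
  apply hσ
  have c3 : graphAt σ (n / 4) ∈ HasBT (Nat.log B n) := hasBT_mono (boughtGraph_le _ _ _) c2
  have hex : ∃ s, graphAt σ s ∈ HasBT (Nat.log B n) := ⟨_, c3⟩
  refine ⟨Nat.find hex, ⟨Nat.find_spec hex, fun s hs => Nat.find_min' hex hs⟩, ?_, ?_⟩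
  · have c4 : n / (48 * B) < Nat.find hex := by
      by_contra h
      exact c1 (hasBT_mono (graphAt_mono σ (not_lt.1 h)) (Nat.find_spec hex))
    have c5 : n ≤ Nat.find hex * (48 * B) :=
      ((Nat.div_lt_iff_lt_mul (by omega)).1 c4).le
    have c6 : (n : ℝ) ≤ Nat.find hex * (48 * B) := by exact_mod_cast c5
    have hB0 : (0 : ℝ) < B := by exact_mod_cast (show 0 < B by omega)
    rw [one_div, inv_mul_eq_div, div_le_iff₀ (by positivity)]
    exact c6
  · have c4 : Nat.find hex ≤ n / 4 := Nat.find_min' hex c3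
    rw [one_mul]
    exact_mod_cast c4.trans (Nat.div_le_self _ _)

end Pool.Agent.MP_8d021f_pr

end
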